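import Mathlib

open Equiv

namespace Pool.Agent.Results.MP_c23b5e_al.AllFail

/-- Every non-identity element lies in exactly one member of `P`. -/
def IsPartition {G : Type*} [Group G] (P : Set (Subgroup G)) : Prop :=
  ∀ g : G, g ≠ 1 → ∃! H : Subgroup G, H ∈ P ∧ g ∈ H

/-- `g⁻¹ A g ∩ A = 1` for every `g` outside `A`. -/
def IsMalnormal {G : Type*} [Group G] (A : Subgroup G) : Prop :=
  ∀ g : G, g ∉ A → ∀ x : G, x ∈ A → g⁻¹ * x * g ∈ A → x = 1

/-- A nontrivial Frobenius partition `{N} ∪ 𝒜` of the group `G`. -/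
structure IsNontrivialFrobeniusPartition {G : Type*} [Group G] (N : Subgroup G)
    (𝒜 : Set (Subgroup G)) : Prop where
  isPartition : IsPartition (insert N 𝒜)
  normal : N.Normal
  malnormal : ∀ A ∈ 𝒜, IsMalnormal A
  conj_mem : ∀ A ∈ 𝒜, ∀ g : G, A.map (MulAut.conj g⁻¹).toMonoidHom ∈ 𝒜
  nontrivial : ∃ H ∈ insert N 𝒜, ∃ K ∈ insert N 𝒜, H ≠ K ∧ H ≠ ⊥ ∧ K ≠ ⊥

section Affine

variable {D : Type} [DivisionRing D]

/-- Every element of `Γ` is an affine map of the division ring `D`. -/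
def IsAff (Γ : Subgroup (Perm D)) : Prop := ∀ f ∈ Γ, ∃ a c : D, ∀ x, f x = a * x + c

/-- The translations in `Γ`. -/
def trans (Γ : Subgroup (Perm D)) : Subgroup Γ where
  carrier := {f | ∀ x, f.1 x = x + f.1 0}
  one_mem' := by
    intro x
    simp
  mul_mem' := by
    intro f g hf hg x
    have h1 : (f * g).1 x = f.1 (g.1 x) := rfl
    have h2 : (f * g).1 0 = f.1 (g.1 0) := rfl
    rw [h1, h2, hf (g.1 x), hf (g.1 0), hg x, add_assoc]
  inv_mem' := by
    intro f hf x
    have h1 : ∀ y, f⁻¹.1 y = y - f.1 0 := by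
      intro y
      have h2 : f.1 (y - f.1 0) = y := by
        rw [hf (y - f.1 0), sub_add_cancel]
      have h3 : f⁻¹.1 (f.1 (y - f.1 0)) = y - f.1 0 := by
        exact Equiv.symm_apply_apply f.1 _
      rw [h2] at h3
      exact h3
    rw [h1 x, h1 0]
    abel

/-- The stabiliser of `q` in `Γ`. -/
def stab (Γ : Subgroup (Perm D)) (q : D) : Subgroup Γ := MulAction.stabilizer Γ q

lemma mem_stab {Γ : Subgroup (Perm D)} {q : D} {f : Γ} : f ∈ stab Γ q ↔ f.1 q = q := Iff.rfl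

lemma mem_trans {Γ : Subgroup (Perm D)} {f : Γ} : f ∈ trans Γ ↔ ∀ x, f.1 x = x + f.1 0 :=
  Iff.rfl

/-- The set of nontrivial point stabilisers. -/
def stabs (Γ : Subgroup (Perm D)) : Set (Subgroup Γ) := {A | A ≠ ⊥ ∧ ∃ q, A = stab Γ q}

lemma eq_one_of_two_fixed {Γ : Subgroup (Perm D)} (hΓ : IsAff Γ) {f : Γ} {p q : D} (hpq : p ≠ q)
    (hp : f.1 p = p) (hq : f.1 q = q) : f = 1 := by
  obtain ⟨a, c, h⟩ := hΓ f.1 f.2
  rw [h p] at hp
  rw [h q] at hq
  have h1 : (a - 1) * (p - q) = 0 := by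
    have : a * p + c - (a * q + c) = p - q := by rw [hp, hq]
    rw [sub_mul, mul_sub, one_mul]
    rw [← this]
    abel
  have h2 : a = 1 := by
    rcases mul_eq_zero.mp h1 with h3 | h3
    · exact sub_eq_zero.mp h3
    · exact absurd (sub_eq_zero.mp h3) hpq
  have h3 : c = 0 := by
    rw [h2, one_mul] at hp
    exact add_eq_left.mp hp
  apply Subtype.ext
  apply Equiv.ext
  intro x
  rw [h x, h2, h3, one_mul, add_zero]
  rfl

lemma eq_one_of_trans_fixed {Γ : Subgroup (Perm D)} {f : Γ} (hf : f ∈ trans Γ) {q : D}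
    (hq : f.1 q = q) : f = 1 := by
  rw [mem_trans] at hf
  have h1 : f.1 0 = 0 := by
    have := hf q
    rw [hq] at this
    exact left_eq_add.mp this
  apply Subtype.ext
  apply Equiv.ext
  intro x
  rw [hf x, h1, add_zero]
  rfl

lemma exists_fixed {Γ : Subgroup (Perm D)} (hΓ : IsAff Γ) {f : Γ} (hf : f ∉ trans Γ) :
    ∃ q, f.1 q = q := by
  obtain ⟨a, c, h⟩ := hΓ f.1 f.2
  have ha : a ≠ 1 := by
    intro ha
    apply hf
    rw [mem_trans]
    intro x
    rw [h x, h 0, ha]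
    simp
  have ha' : 1 - a ≠ 0 := sub_ne_zero.mpr (Ne.symm ha)
  refine ⟨(1 - a)⁻¹ * c, ?_⟩
  rw [h]
  have h1 : (1 - a) * ((1 - a)⁻¹ * c) = c := by
    rw [← mul_assoc, mul_inv_cancel₀ ha', one_mul]
  rw [sub_mul, one_mul] at h1
  nth_rewrite 2 [← h1]
  abel

lemma trans_normal {Γ : Subgroup (Perm D)} (hΓ : IsAff Γ) : (trans Γ).Normal := by
  constructor
  intro f hf g
  obtain ⟨a, c, h⟩ := hΓ g.1 g.2
  rw [mem_trans] at hf ⊢
  have key : ∀ x, (g * f * g⁻¹).1 x = x + a * f.1 0 := by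
    intro x
    have h1 : (g * f * g⁻¹).1 x = g.1 (f.1 (g⁻¹.1 x)) := rfl
    have h2 : g.1 (g⁻¹.1 x) = x := Equiv.apply_symm_apply g.1 x
    rw [h] at h2
    have h3 : a * g⁻¹.1 x + a * f.1 0 + c = (a * g⁻¹.1 x + c) + a * f.1 0 := by abel
    rw [h1, hf (g⁻¹.1 x), h, mul_add, h3, h2]
  intro x
  rw [key x, key 0, zero_add]

lemma stab_malnormal {Γ : Subgroup (Perm D)} (hΓ : IsAff Γ) (q : D) : IsMalnormal (stab Γ q) := by
  intro g hg x hx hgx
  rw [mem_stab] at hg hx hgx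
  have h1 : x.1 (g.1 q) = g.1 q := by
    have h2 : (g⁻¹ * x * g).1 q = g⁻¹.1 (x.1 (g.1 q)) := rfl
    rw [h2] at hgx
    have h3 : g.1 (g⁻¹.1 (x.1 (g.1 q))) = x.1 (g.1 q) := Equiv.apply_symm_apply g.1 _
    rw [hgx] at h3
    exact h3.symm
  exact eq_one_of_two_fixed hΓ (Ne.symm hg) hx h1

lemma stab_conj {Γ : Subgroup (Perm D)} (q : D) (g : Γ) :
    (stab Γ q).map (MulAut.conj g).toMonoidHom = stab Γ (g.1 q) := by
  have := MulAction.stabilizer_smul_eq_stabilizer_map_conj g q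
  exact this.symm

theorem stabs_partition {Γ : Subgroup (Perm D)} (hΓ : IsAff Γ) (h1 : trans Γ ≠ ⊥)
    (h2 : ∃ f : Γ, f ∉ trans Γ) : IsNontrivialFrobeniusPartition (trans Γ) (stabs Γ) where
  isPartition := by
    intro g hg
    by_cases hgt : g ∈ trans Γ
    · refine ⟨trans Γ, ⟨Set.mem_insert _ _, hgt⟩, ?_⟩
      rintro H ⟨hH | ⟨-, q, rfl⟩, hgH⟩
      · exact hH
      · exact absurd (eq_one_of_trans_fixed hgt hgH) hg
    · obtain ⟨q, hq⟩ := exists_fixed hΓ hgt
      refine ⟨stab Γ q, ⟨Or.inr ⟨?_, q, rfl⟩, hq⟩, ?_⟩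
      · intro h
        have : g ∈ stab Γ q := hq
        rw [h] at this
        exact hg this
      · rintro H ⟨hH | ⟨-, p, rfl⟩, hgH⟩
        · rw [hH] at hgH
          exact absurd hgH hgt
        · by_contra hne
          have hpq : p ≠ q := by
            rintro rfl
            exact hne rfl
          exact hg (eq_one_of_two_fixed hΓ hpq hgH hq)
  normal := trans_normal hΓ
  malnormal := by
    rintro A ⟨-, q, rfl⟩
    exact stab_malnormal hΓ q
  conj_mem := by
    rintro A ⟨hA, q, rfl⟩ g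
    refine ⟨?_, g⁻¹.1 q, stab_conj q g⁻¹⟩
    intro h
    apply hA
    rw [Subgroup.map_eq_bot_iff_of_injective] at h
    · exact h
    · exact (MulAut.conj g⁻¹).injective
  nontrivial := by
    obtain ⟨f, hf⟩ := h2
    obtain ⟨q, hq⟩ := exists_fixed hΓ hf
    have hne : stab Γ q ≠ ⊥ := by
      intro h
      have h3 : f ∈ stab Γ q := hq
      rw [h] at h3
      apply hf
      rw [Subgroup.mem_bot] at h3
      rw [h3]
      exact Subgroup.one_mem _
    refine ⟨trans Γ, Set.mem_insert _ _, stab Γ q, Or.inr ⟨hne, q, rfl⟩, ?_, h1, hne⟩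
    intro h
    apply hf
    rw [h]
    exact hq

/-- The centralisers of the elements of `Γ` that are not translations. -/
def cents (Γ : Subgroup (Perm D)) : Set (Subgroup Γ) :=
  {A | ∃ f : Γ, f ∉ trans Γ ∧ A = Subgroup.centralizer {f}}

lemma mem_cent {Γ : Subgroup (Perm D)} {f g : Γ} :
    g ∈ Subgroup.centralizer ({f} : Set Γ) ↔ f * g = g * f := by
  rw [Subgroup.mem_centralizer_singleton_iff]
  exact eq_comm

lemma cent_le_stab {Γ : Subgroup (Perm D)} (hΓ : IsAff Γ) {f : Γ} (hf : f ∉ trans Γ) {q : D}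
    (hq : f.1 q = q) {x : Γ} (hx : f * x = x * f) : x.1 q = q := by
  by_contra hne
  have h1 : f.1 (x.1 q) = x.1 q := by
    have h2 : (f * x).1 q = (x * f).1 q := by rw [hx]
    have h3 : (f * x).1 q = f.1 (x.1 q) := rfl
    have h4 : (x * f).1 q = x.1 (f.1 q) := rfl
    rw [h3, h4, hq] at h2
    exact h2
  apply hf
  rw [eq_one_of_two_fixed hΓ hne h1 hq]
  exact Subgroup.one_mem _

theorem cents_partition {Γ : Subgroup (Perm D)} (hΓ : IsAff Γ) (h1 : trans Γ ≠ ⊥)
    (h2 : ∃ f : Γ, f ∉ trans Γ)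
    (H1 : ∀ q : D, ∀ f g h : Γ, f.1 q = q → g.1 q = q → h.1 q = q → g ≠ 1 → f * g = g * f →
      g * h = h * g → f * h = h * f)
    (H2 : ∀ q : D, ∀ x g : Γ, x.1 q = q → g.1 q = q → x ≠ 1 →
      (g⁻¹ * x * g) * x = x * (g⁻¹ * x * g) → g * x = x * g) :
    IsNontrivialFrobeniusPartition (trans Γ) (cents Γ) where
  isPartition := by
    intro g hg
    by_cases hgt : g ∈ trans Γ
    · refine ⟨trans Γ, ⟨Set.mem_insert _ _, hgt⟩, ?_⟩
      rintro H ⟨hH | ⟨f, hf, rfl⟩, hgH⟩
      · exact hH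
      · obtain ⟨q, hq⟩ := exists_fixed hΓ hf
        exact absurd (eq_one_of_trans_fixed hgt (cent_le_stab hΓ hf hq (mem_cent.mp hgH))) hg
    · refine ⟨Subgroup.centralizer {g}, ⟨Or.inr ⟨g, hgt, rfl⟩, mem_cent.mpr rfl⟩, ?_⟩
      rintro H ⟨hH | ⟨f, hf, rfl⟩, hgH⟩
      · rw [hH] at hgH
        exact absurd hgH hgt
      · obtain ⟨q, hq⟩ := exists_fixed hΓ hf
        rw [mem_cent] at hgH
        have hgq := cent_le_stab hΓ hf hq hgH
        have hf1 : f ≠ 1 := by
          rintro rfl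
          exact hf (Subgroup.one_mem _)
        ext x
        rw [mem_cent, mem_cent]
        constructor
        · intro hx
          have hxq := cent_le_stab hΓ hf hq hx
          exact H1 q g f x hgq hq hxq hf1 hgH.symm hx
        · intro hx
          have hxq := cent_le_stab hΓ hgt hgq hx
          exact H1 q f g x hq hgq hxq hg hgH hx
  normal := trans_normal hΓ
  malnormal := by
    rintro A ⟨f, hf, rfl⟩ g hg x hx hgx
    rw [mem_cent] at hg hx hgx
    by_contra hx1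
    obtain ⟨q, hq⟩ := exists_fixed hΓ hf
    have hf1 : f ≠ 1 := by
      rintro rfl
      exact hf (Subgroup.one_mem _)
    have hxq := cent_le_stab hΓ hf hq hx
    have hyq := cent_le_stab hΓ hf hq hgx
    have h5 : x.1 (g.1 q) = g.1 q := by
      have h2 : (g⁻¹ * x * g).1 q = g⁻¹.1 (x.1 (g.1 q)) := rfl
      rw [h2] at hyq
      have h3 : g.1 (g⁻¹.1 (x.1 (g.1 q))) = x.1 (g.1 q) := Equiv.apply_symm_apply g.1 _
      rw [hyq] at h3
      exact h3.symm
    have hgq : g.1 q = q := by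
      by_contra hne
      exact hx1 (eq_one_of_two_fixed hΓ hne h5 hxq)
    have h6 := H1 q (g⁻¹ * x * g) f x hyq hq hxq hf1 hgx.symm hx
    have h7 := H2 q x g hxq hgq hx1 h6
    exact hg (H1 q g x f hgq hxq hq hx1 h7 hx.symm).symm
  conj_mem := by
    rintro A ⟨f, hf, rfl⟩ g
    refine ⟨g⁻¹ * f * g, ?_, ?_⟩
    · intro h
      apply hf
      have := (trans_normal hΓ).conj_mem _ h g
      have h3 : g * (g⁻¹ * f * g) * g⁻¹ = f := by group
      rwa [h3] at this
    · ext x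
      rw [mem_cent, Subgroup.mem_map]
      constructor
      · rintro ⟨y, hy, rfl⟩
        rw [mem_cent] at hy
        have h3 : (MulAut.conj g⁻¹).toMonoidHom y = g⁻¹ * y * g := by simp
        rw [h3]
        have h4 : g⁻¹ * f * g * (g⁻¹ * y * g) = g⁻¹ * (f * y) * g := by group
        have h5 : g⁻¹ * y * g * (g⁻¹ * f * g) = g⁻¹ * (y * f) * g := by group
        rw [h4, h5, hy]
      · intro hx
        refine ⟨g * x * g⁻¹, ?_, ?_⟩
        · rw [mem_cent]
          have h4 : f * (g * x * g⁻¹) = g * ((g⁻¹ * f * g) * x) * g⁻¹ := by group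
          have h5 : (g * x * g⁻¹) * f = g * (x * (g⁻¹ * f * g)) * g⁻¹ := by group
          rw [h4, h5, hx]
        · have h3 : (MulAut.conj g⁻¹).toMonoidHom (g * x * g⁻¹) = g⁻¹ * (g * x * g⁻¹) * g := by
            simp
          rw [h3]
          group
  nontrivial := by
    obtain ⟨f, hf⟩ := h2
    have hff : f ∈ Subgroup.centralizer ({f} : Set Γ) := mem_cent.mpr rfl
    have hne : Subgroup.centralizer ({f} : Set Γ) ≠ ⊥ := by
      intro h
      rw [h, Subgroup.mem_bot] at hff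
      apply hf
      rw [hff]
      exact Subgroup.one_mem _
    refine ⟨trans Γ, Set.mem_insert _ _, Subgroup.centralizer {f}, Or.inr ⟨f, hf, rfl⟩, ?_, h1, hne⟩
    intro h
    apply hf
    rw [h]
    exact hff

/-- The group of affine maps `x ↦ a x + c` with `P a c`. -/
def affGroup (P : D → D → Prop) (h1 : P 1 0)
    (hmul : ∀ a c b d, P a c → P b d → P (a * b) (a * d + c))
    (hinv : ∀ a c, P a c → a ≠ 0 ∧ P a⁻¹ (-(a⁻¹ * c))) : Subgroup (Perm D) where
  carrier := {f | ∃ a c, P a c ∧ ∀ x, f x = a * x + c}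
  one_mem' := ⟨1, 0, h1, fun x => by simp⟩
  mul_mem' := by
    rintro f g ⟨a, c, hac, hf⟩ ⟨b, d, hbd, hg⟩
    refine ⟨a * b, a * d + c, hmul a c b d hac hbd, fun x => ?_⟩
    rw [Perm.mul_apply, hg, hf, mul_add, mul_assoc, add_assoc]
  inv_mem' := by
    rintro f ⟨a, c, hac, hf⟩
    obtain ⟨ha, hP⟩ := hinv a c hac
    refine ⟨a⁻¹, -(a⁻¹ * c), hP, fun x => ?_⟩
    rw [Perm.inv_eq_iff_eq, hf, mul_add, mul_neg, ← mul_assoc, ← mul_assoc, mul_inv_cancel₀ ha]
    simp

/-- The affine permutation `x ↦ a x + c`. -/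
def mkAff (a c : D) (ha : a ≠ 0) : Perm D where
  toFun x := a * x + c
  invFun x := a⁻¹ * (x - c)
  left_inv x := by
    show a⁻¹ * (a * x + c - c) = x
    rw [add_sub_cancel_right, ← mul_assoc, inv_mul_cancel₀ ha, one_mul]
  right_inv x := by
    show a * (a⁻¹ * (x - c)) + c = x
    rw [← mul_assoc, mul_inv_cancel₀ ha, one_mul, sub_add_cancel]

lemma mkAff_apply (a c : D) (ha : a ≠ 0) (x : D) : mkAff a c ha x = a * x + c := rfl

end Affine

section Quat

/-- Rational quaternions of norm one congruent to one modulo three. -/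
def QS (a : Quaternion ℚ) : Prop :=
  a.re * a.re + a.imI * a.imI + a.imJ * a.imJ + a.imK * a.imK = 1 ∧
    ∃ n y₀ y₁ y₂ y₃ : ℤ, ¬ (3 : ℤ) ∣ n ∧ n * (a.re - 1) = 3 * y₀ ∧ n * a.imI = 3 * y₁ ∧
      n * a.imJ = 3 * y₂ ∧ n * a.imK = 3 * y₃

lemma QS_one : QS 1 := by
  refine ⟨?_, 1, 0, 0, 0, 0, by norm_num, ?_, ?_, ?_, ?_⟩
  · rw [Quaternion.re_one, Quaternion.imI_one, Quaternion.imJ_one, Quaternion.imK_one]
    norm_num
  · rw [Quaternion.re_one]
    norm_num
  · rw [Quaternion.imI_one]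
    norm_num
  · rw [Quaternion.imJ_one]
    norm_num
  · rw [Quaternion.imK_one]
    norm_num

lemma QS_mul {a b : Quaternion ℚ} (ha : QS a) (hb : QS b) : QS (a * b) := by
  obtain ⟨ha1, n, x0, x1, x2, x3, hn, h0, h1, h2, h3⟩ := ha
  obtain ⟨hb1, m, y0, y1, y2, y3, hm, k0, k1, k2, k3⟩ := hb
  constructor
  · rw [Quaternion.re_mul, Quaternion.imI_mul, Quaternion.imJ_mul, Quaternion.imK_mul]
    linear_combination (b.re * b.re + b.imI * b.imI + b.imJ * b.imJ + b.imK * b.imK) * ha1 + hb1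
  · refine ⟨n * m, m * x0 + n * y0 + 3 * (x0 * y0 - x1 * y1 - x2 * y2 - x3 * y3),
      m * x1 + n * y1 + 3 * (x0 * y1 + x1 * y0 + x2 * y3 - x3 * y2),
      m * x2 + n * y2 + 3 * (x0 * y2 - x1 * y3 + x2 * y0 + x3 * y1),
      m * x3 + n * y3 + 3 * (x0 * y3 + x1 * y2 - x2 * y1 + x3 * y0), ?_, ?_, ?_, ?_, ?_⟩
    · intro h
      rcases (Int.prime_three.dvd_mul).mp h with h | h
      · exact hn h
      · exact hm h
    · rw [Quaternion.re_mul]
      push_cast
      have e0 : (n : ℚ) * a.re = n + 3 * x0 := by linear_combination h0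
      have f0 : (m : ℚ) * b.re = m + 3 * y0 := by linear_combination k0
      linear_combination (m * b.re) * e0 + (n + 3 * x0) * f0 - (m * b.imI) * h1 - 3 * x1 * k1
        - (m * b.imJ) * h2 - 3 * x2 * k2 - (m * b.imK) * h3 - 3 * x3 * k3
    · rw [Quaternion.imI_mul]
      push_cast
      have e0 : (n : ℚ) * a.re = n + 3 * x0 := by linear_combination h0
      have f0 : (m : ℚ) * b.re = m + 3 * y0 := by linear_combination k0
      linear_combination (m * b.imI) * e0 + (n + 3 * x0) * k1 + (m * b.re) * h1 + 3 * x1 * f0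
        + (m * b.imK) * h2 + 3 * x2 * k3 - (m * b.imJ) * h3 - 3 * x3 * k2
    · rw [Quaternion.imJ_mul]
      push_cast
      have e0 : (n : ℚ) * a.re = n + 3 * x0 := by linear_combination h0
      have f0 : (m : ℚ) * b.re = m + 3 * y0 := by linear_combination k0
      linear_combination (m * b.imJ) * e0 + (n + 3 * x0) * k2 - (m * b.imK) * h1 - 3 * x1 * k3
        + (m * b.re) * h2 + 3 * x2 * f0 + (m * b.imI) * h3 + 3 * x3 * k1
    · rw [Quaternion.imK_mul]
      push_cast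
      have e0 : (n : ℚ) * a.re = n + 3 * x0 := by linear_combination h0
      have f0 : (m : ℚ) * b.re = m + 3 * y0 := by linear_combination k0
      linear_combination (m * b.imK) * e0 + (n + 3 * x0) * k3 + (m * b.imJ) * h1 + 3 * x1 * k2
        - (m * b.imI) * h2 - 3 * x2 * k1 + (m * b.re) * h3 + 3 * x3 * f0

lemma QS_inv {a : Quaternion ℚ} (ha : QS a) : a ≠ 0 ∧ QS a⁻¹ := by
  obtain ⟨ha1, n, x0, x1, x2, x3, hn, h0, h1, h2, h3⟩ := ha
  have hne : a ≠ 0 := by
    rintro rfl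
    rw [Quaternion.re_zero, Quaternion.imI_zero, Quaternion.imJ_zero, Quaternion.imK_zero] at ha1
    norm_num at ha1
  have hinv : a⁻¹ = star a := by
    rw [inv_eq_iff_eq_inv, eq_comm]
    apply inv_eq_of_mul_eq_one_left
    ext
    · rw [Quaternion.re_mul, Quaternion.re_one, Quaternion.re_star, Quaternion.imI_star,
        Quaternion.imJ_star, Quaternion.imK_star]
      linear_combination ha1
    · rw [Quaternion.imI_mul, Quaternion.imI_one, Quaternion.re_star, Quaternion.imI_star,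
        Quaternion.imJ_star, Quaternion.imK_star]
      ring
    · rw [Quaternion.imJ_mul, Quaternion.imJ_one, Quaternion.re_star, Quaternion.imI_star,
        Quaternion.imJ_star, Quaternion.imK_star]
      ring
    · rw [Quaternion.imK_mul, Quaternion.imK_one, Quaternion.re_star, Quaternion.imI_star,
        Quaternion.imJ_star, Quaternion.imK_star]
      ring
  refine ⟨hne, ?_⟩
  rw [hinv]
  constructor
  · simp
    linear_combination ha1
  · refine ⟨n, x0, -x1, -x2, -x3, hn, ?_, ?_, ?_, ?_⟩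
    · simp
      linear_combination h0
    · simp
      linear_combination h1
    · simp
      linear_combination h2
    · simp
      linear_combination h3

/-- The affine group over the rational quaternions. -/
noncomputable def QG : Subgroup (Perm (Quaternion ℚ)) :=
  affGroup (fun a _ => QS a) QS_one (fun _ _ _ _ ha hb => QS_mul ha hb) (fun _ _ ha => QS_inv ha)

lemma QG_aff : IsAff QG := by
  rintro f ⟨a, c, -, h⟩
  exact ⟨a, c, h⟩

lemma comm_iff (a b : Quaternion ℚ) : a * b = b * a ↔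
    a.imI * b.imJ = a.imJ * b.imI ∧ a.imJ * b.imK = a.imK * b.imJ ∧
      a.imK * b.imI = a.imI * b.imK := by
  constructor
  · intro h
    have hI := congrArg (fun q : Quaternion ℚ => q.imI) h
    have hJ := congrArg (fun q : Quaternion ℚ => q.imJ) h
    have hK := congrArg (fun q : Quaternion ℚ => q.imK) h
    simp only [Quaternion.imI_mul, Quaternion.imJ_mul, Quaternion.imK_mul] at hI hJ hK
    refine ⟨?_, ?_, ?_⟩
    · linarith
    · linarith
    · linarith
  · rintro ⟨h1, h2, h3⟩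
    ext
    · rw [Quaternion.re_mul, Quaternion.re_mul]
      ring
    · rw [Quaternion.imI_mul, Quaternion.imI_mul]
      linear_combination 2 * h2
    · rw [Quaternion.imJ_mul, Quaternion.imJ_mul]
      linear_combination 2 * h3
    · rw [Quaternion.imK_mul, Quaternion.imK_mul]
      linear_combination 2 * h1

lemma QS_im_ne {a : Quaternion ℚ} (ha : QS a) (h1 : a ≠ 1) :
    ¬ (a.imI = 0 ∧ a.imJ = 0 ∧ a.imK = 0) := by
  rintro ⟨hI, hJ, hK⟩
  obtain ⟨ha1, n, x0, x1, x2, x3, hn, h0, -, -, -⟩ := ha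
  rw [hI, hJ, hK] at ha1
  have h2 : (a.re - 1) * (a.re + 1) = 0 := by linear_combination ha1
  rcases mul_eq_zero.mp h2 with h3 | h3
  · apply h1
    ext
    · rw [Quaternion.re_one]
      linear_combination h3
    · rw [hI, Quaternion.imI_one]
    · rw [hJ, Quaternion.imJ_one]
    · rw [hK, Quaternion.imK_one]
  · have h4 : a.re = -1 := by linear_combination h3
    rw [h4] at h0
    have h5 : n * (-2) = 3 * x0 := by
      have : ((n * (-2) : ℤ) : ℚ) = ((3 * x0 : ℤ) : ℚ) := by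
        push_cast
        linear_combination h0
      exact_mod_cast this
    apply hn
    omega

lemma comm_trans {a b c : Quaternion ℚ} (hb : ¬ (b.imI = 0 ∧ b.imJ = 0 ∧ b.imK = 0))
    (h1 : a * b = b * a) (h2 : b * c = c * b) : a * c = c * a := by
  rw [comm_iff] at h1 h2 ⊢
  obtain ⟨h11, h12, h13⟩ := h1
  obtain ⟨h21, h22, h23⟩ := h2
  by_cases hI : b.imI = 0
  · by_cases hJ : b.imJ = 0
    · have hK : b.imK ≠ 0 := fun hK => hb ⟨hI, hJ, hK⟩
      refine ⟨?_, ?_, ?_⟩
      · apply mul_left_cancel₀ hK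
        have e1 : a.imJ * b.imK = 0 := by rw [h12, hJ, mul_zero]
        have e2 : a.imI * b.imK = 0 := by rw [← h13, hI, mul_zero]
        linear_combination c.imJ * e2 - c.imI * e1
      · apply mul_left_cancel₀ hK
        linear_combination c.imK * h12 + a.imK * h22
      · apply mul_left_cancel₀ hK
        linear_combination c.imK * h13 + a.imK * h23
    · refine ⟨?_, ?_, ?_⟩
      · apply mul_left_cancel₀ hJ
        linear_combination c.imJ * h11 + a.imJ * h21
      · apply mul_left_cancel₀ hJ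
        linear_combination c.imJ * h12 + a.imJ * h22
      · apply mul_left_cancel₀ hJ
        have e1 : a.imI * b.imJ = 0 := by rw [h11, hI, mul_zero]
        have e2 : b.imJ * c.imI = 0 := by rw [← h21, hI, zero_mul]
        linear_combination a.imK * e2 - c.imK * e1
  · refine ⟨?_, ?_, ?_⟩
    · apply mul_left_cancel₀ hI
      linear_combination c.imI * h11 + a.imI * h21
    · apply mul_left_cancel₀ hI
      linear_combination (-a.imJ) * h23 + c.imI * h12 - a.imK * h21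
    · apply mul_left_cancel₀ hI
      linear_combination c.imI * h13 + a.imI * h23

lemma sum_three_sq {u v w : ℚ} (h : u * u + v * v + w * w = 0) : u = 0 ∧ v = 0 ∧ w = 0 := by
  have h1 := mul_self_nonneg u
  have h2 := mul_self_nonneg v
  have h3 := mul_self_nonneg w
  refine ⟨?_, ?_, ?_⟩
  · exact mul_self_eq_zero.mp (by linarith)
  · exact mul_self_eq_zero.mp (by linarith)
  · exact mul_self_eq_zero.mp (by linarith)

lemma comm_conj {x g y : Quaternion ℚ} (hx : ¬ (x.imI = 0 ∧ x.imJ = 0 ∧ x.imK = 0))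
    (hxS : QS x) (hyS : QS y) (hg : QS g) (h1 : g * y = x * g) (h2 : y * x = x * y) :
    g * x = x * g := by
  obtain ⟨hx1, -⟩ := hxS
  obtain ⟨hy1, -⟩ := hyS
  obtain ⟨hg1, n, k0, -, -, -, hn, hk0, -, -, -⟩ := hg
  have h1r := congrArg (fun q : Quaternion ℚ => q.re) h1
  have h1I := congrArg (fun q : Quaternion ℚ => q.imI) h1
  have h1J := congrArg (fun q : Quaternion ℚ => q.imJ) h1
  have h1K := congrArg (fun q : Quaternion ℚ => q.imK) h1
  simp only [Quaternion.re_mul, Quaternion.imI_mul, Quaternion.imJ_mul, Quaternion.imK_mul]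
    at h1r h1I h1J h1K
  have hre : y.re = x.re := by
    linear_combination (x.re - y.re) * hg1 + g.re * h1r + g.imI * h1I + g.imJ * h1J + g.imK * h1K
  rw [comm_iff] at h2
  obtain ⟨h21, h22, h23⟩ := h2
  set N := x.imI * x.imI + x.imJ * x.imJ + x.imK * x.imK with hN
  set s := x.imI * y.imI + x.imJ * y.imJ + x.imK * y.imK with hs
  have hM : y.imI * y.imI + y.imJ * y.imJ + y.imK * y.imK = N := by
    rw [hN]
    rw [hre] at hy1
    linear_combination hy1 - hx1
  have hss : s * s = N * N := by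
    have e1 : s * s = N * (y.imI * y.imI + y.imJ * y.imJ + y.imK * y.imK) := by
      rw [hs, hN]
      linear_combination (-(y.imI * x.imJ - y.imJ * x.imI)) * h21
        - (y.imJ * x.imK - y.imK * x.imJ) * h22 - (y.imK * x.imI - y.imI * x.imK) * h23
    rw [e1, hM]
  rcases mul_self_eq_mul_self_iff.mp hss with h | h
  · have e2 : (y.imI - x.imI) * (y.imI - x.imI) + (y.imJ - x.imJ) * (y.imJ - x.imJ)
        + (y.imK - x.imK) * (y.imK - x.imK) = 0 := by
      linear_combination hM - 2 * h + (-1) * hN + 2 * hs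
    obtain ⟨e3, e4, e5⟩ := sum_three_sq e2
    have e6 : y = x := by
      ext
      · exact hre
      · exact sub_eq_zero.mp e3
      · exact sub_eq_zero.mp e4
      · exact sub_eq_zero.mp e5
    rw [e6] at h1
    exact h1
  · exfalso
    have e2 : (y.imI + x.imI) * (y.imI + x.imI) + (y.imJ + x.imJ) * (y.imJ + x.imJ)
        + (y.imK + x.imK) * (y.imK + x.imK) = 0 := by
      linear_combination hM + 2 * h + (-1) * hN - 2 * hs
    obtain ⟨e3', e4', e5'⟩ := sum_three_sq e2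
    have e3 : y.imI = - x.imI := eq_neg_of_add_eq_zero_left e3'
    have e4 : y.imJ = - x.imJ := eq_neg_of_add_eq_zero_left e4'
    have e5 : y.imK = - x.imK := eq_neg_of_add_eq_zero_left e5'
    rw [hre, e3, e4, e5] at h1I h1J h1K
    have f1 : g.re * x.imI = 0 := by linear_combination (-1 / 2) * h1I
    have f2 : g.re * x.imJ = 0 := by linear_combination (-1 / 2) * h1J
    have f3 : g.re * x.imK = 0 := by linear_combination (-1 / 2) * h1K
    have f4 : g.re = 0 := by
      by_contra hne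
      apply hx
      refine ⟨?_, ?_, ?_⟩
      · exact (mul_eq_zero.mp f1).resolve_left hne
      · exact (mul_eq_zero.mp f2).resolve_left hne
      · exact (mul_eq_zero.mp f3).resolve_left hne
    rw [f4] at hk0
    have h5 : n * (-1) = 3 * k0 := by
      have : ((n * (-1) : ℤ) : ℚ) = ((3 * k0 : ℤ) : ℚ) := by
        push_cast
        linear_combination hk0
      exact_mod_cast this
    apply hn
    omega

lemma QG_mem {f : QG} : ∃ a c, QS a ∧ ∀ x, f.1 x = a * x + c := by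
  obtain ⟨a, c, h1, h2⟩ := f.2
  exact ⟨a, c, h1, h2⟩

lemma QG_lin {f : QG} {q : Quaternion ℚ} (hq : f.1 q = q) :
    ∃ a, QS a ∧ (∀ x, f.1 x = a * (x - q) + q) ∧ (f = 1 ↔ a = 1) := by
  obtain ⟨a, c, h1, h2⟩ := QG_mem (f := f)
  have h3 : ∀ x, f.1 x = a * (x - q) + q := by
    intro x
    have h4 : a * q + c = q := by rw [← h2 q, hq]
    rw [h2 x, mul_sub]
    nth_rewrite 2 [← h4]
    abel
  refine ⟨a, h1, h3, ?_, ?_⟩
  · intro h
    have h5 := h3 (1 + q)
    rw [h] at h5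
    have h6 : ((1 : QG).1) (1 + q) = 1 + q := rfl
    rw [h6, add_sub_cancel_right, mul_one] at h5
    exact (add_right_cancel h5).symm
  · intro h
    apply Subtype.ext
    apply Equiv.ext
    intro x
    rw [h3 x, h, one_mul, sub_add_cancel]
    rfl

lemma QG_comm {f g : QG} {q a b : Quaternion ℚ} (hf : ∀ x, f.1 x = a * (x - q) + q)
    (hg : ∀ x, g.1 x = b * (x - q) + q) : f * g = g * f ↔ a * b = b * a := by
  have h1 : ∀ x, (f * g).1 x = a * b * (x - q) + q := by
    intro x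
    have : (f * g).1 x = f.1 (g.1 x) := rfl
    rw [this, hg, hf, add_sub_cancel_right, mul_assoc]
  have h2 : ∀ x, (g * f).1 x = b * a * (x - q) + q := by
    intro x
    have : (g * f).1 x = g.1 (f.1 x) := rfl
    rw [this, hf, hg, add_sub_cancel_right, mul_assoc]
  constructor
  · intro h
    have h3 := h1 (1 + q)
    rw [h, h2, add_sub_cancel_right, mul_one, mul_one] at h3
    exact (add_right_cancel h3).symm
  · intro h
    apply Subtype.ext
    apply Equiv.ext
    intro x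
    rw [h1, h2, h]

lemma QG_H1 (q : Quaternion ℚ) (f g h : QG) (hf : f.1 q = q) (hg : g.1 q = q) (hh : h.1 q = q)
    (hg1 : g ≠ 1) (h1 : f * g = g * f) (h2 : g * h = h * g) : f * h = h * f := by
  obtain ⟨a, ha, hfa, -⟩ := QG_lin hf
  obtain ⟨b, hb, hgb, hb1⟩ := QG_lin hg
  obtain ⟨c, hc, hhc, -⟩ := QG_lin hh
  rw [QG_comm hfa hgb] at h1
  rw [QG_comm hgb hhc] at h2
  rw [QG_comm hfa hhc]
  exact comm_trans (QS_im_ne hb (fun h => hg1 (hb1.mpr h))) h1 h2

lemma QG_H2 (q : Quaternion ℚ) (x g : QG) (hx : x.1 q = q) (hg : g.1 q = q) (hx1 : x ≠ 1)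
    (h : (g⁻¹ * x * g) * x = x * (g⁻¹ * x * g)) : g * x = x * g := by
  have hgi : g⁻¹.1 q = q := by
    have : g⁻¹.1 (g.1 q) = q := Equiv.symm_apply_apply g.1 q
    rwa [hg] at this
  have hy : (g⁻¹ * x * g).1 q = q := by
    have : (g⁻¹ * x * g).1 q = g⁻¹.1 (x.1 (g.1 q)) := rfl
    rw [this, hg, hx, hgi]
  obtain ⟨a, ha, hxa, ha1⟩ := QG_lin hx
  obtain ⟨b, hb, hgb, -⟩ := QG_lin hg
  obtain ⟨c, hc, hyc, -⟩ := QG_lin hy
  rw [QG_comm hyc hxa] at h
  rw [QG_comm hgb hxa]
  have h3 : b * c = a * b := by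
    have h4 : g * (g⁻¹ * x * g) = x * g := by group
    have h5 : (g * (g⁻¹ * x * g)).1 (1 + q) = (x * g).1 (1 + q) := by rw [h4]
    have h6 : (g * (g⁻¹ * x * g)).1 (1 + q) = g.1 ((g⁻¹ * x * g).1 (1 + q)) := rfl
    have h7 : (x * g).1 (1 + q) = x.1 (g.1 (1 + q)) := rfl
    rw [h6, h7, hyc, hgb, hgb, hxa] at h5
    simp only [add_sub_cancel_right, mul_one] at h5
    exact add_right_cancel h5
  exact comm_conj (QS_im_ne ha (fun h => hx1 (ha1.mpr h))) ha hc hb h3 h

lemma QG_trans_ne : trans QG ≠ ⊥ := by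
  intro h
  have h1 : mkAff (1 : Quaternion ℚ) 1 one_ne_zero ∈ QG := ⟨1, 1, QS_one, fun x => rfl⟩
  have h2 : (⟨_, h1⟩ : QG) ∈ trans QG := by
    intro x
    show 1 * x + 1 = x + (1 * 0 + 1)
    rw [one_mul, mul_zero, zero_add]
  rw [h, Subgroup.mem_bot] at h2
  have h3 : mkAff (1 : Quaternion ℚ) 1 one_ne_zero 0 = 0 := by
    have := congrArg (fun f : QG => f.1 0) h2
    exact this
  rw [mkAff_apply, mul_zero, zero_add] at h3
  exact one_ne_zero h3

/-- two non-commuting quaternions -/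
def qa : Quaternion ℚ := ⟨-4 / 5, 3 / 5, 0, 0⟩

def qb : Quaternion ℚ := ⟨-4 / 5, 0, 3 / 5, 0⟩

lemma QS_qa : QS qa := by
  refine ⟨by norm_num [qa], 5, -3, 1, 0, 0, by norm_num, ?_, ?_, ?_, ?_⟩ <;> norm_num [qa]

lemma QS_qb : QS qb := by
  refine ⟨by norm_num [qb], 5, -3, 0, 1, 0, by norm_num, ?_, ?_, ?_, ?_⟩ <;> norm_num [qb]

lemma qab : qa * qb ≠ qb * qa := by
  rw [Ne, comm_iff]
  norm_num [qa, qb]

lemma QG_not_trans {a : Quaternion ℚ} (ha : QS a) (ha0 : a ≠ 0) (ha1 : a ≠ 1) :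
    (⟨mkAff a 0 ha0, ⟨a, 0, ha, fun _ => rfl⟩⟩ : QG) ∉ trans QG := by
  intro h
  have h1 := h 1
  have h2 : (mkAff a 0 ha0) 1 = 1 + (mkAff a 0 ha0) 0 := h1
  rw [mkAff_apply, mkAff_apply, mul_one, mul_zero, add_zero] at h2
  exact ha1 (by simpa using h2)

lemma qa_ne_one : qa ≠ 1 := by
  intro h
  apply qab
  rw [h, one_mul, mul_one]

theorem part_one :
    ∃ (G : Type) (_ : Group G) (_ : Infinite G) (N : Subgroup G) (𝒜 𝒜' : Set (Subgroup G)),
      IsNontrivialFrobeniusPartition N 𝒜 ∧ IsNontrivialFrobeniusPartition N 𝒜' ∧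
      (∀ A ∈ 𝒜, A ≠ ⊥) ∧ (∀ A ∈ 𝒜', A ≠ ⊥) ∧ 𝒜 ≠ 𝒜' := by
  have hex : ∃ f : QG, f ∉ trans QG := ⟨_, QG_not_trans QS_qa (QS_inv QS_qa).1 qa_ne_one⟩
  have hinf : Infinite QG := by
    have hinj : Function.Injective (fun n : ℕ => (⟨mkAff (1 : Quaternion ℚ) n one_ne_zero,
        ⟨1, n, QS_one, fun _ => rfl⟩⟩ : QG)) := by
      intro n m hnm
      have h1 := congrArg (fun f : QG => f.1 0) hnm
      have h2 : mkAff (1 : Quaternion ℚ) n one_ne_zero 0 = mkAff (1 : Quaternion ℚ) m one_ne_zero 0 :=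
        h1
      rw [mkAff_apply, mkAff_apply, mul_zero, zero_add, zero_add] at h2
      have h3 := congrArg (fun z : Quaternion ℚ => z.re) h2
      simp only [Quaternion.re_natCast] at h3
      exact_mod_cast h3
    exact Infinite.of_injective _ hinj
  refine ⟨QG, inferInstance, hinf, trans QG, stabs QG, cents QG,
    stabs_partition QG_aff QG_trans_ne hex, cents_partition QG_aff QG_trans_ne hex QG_H1 QG_H2,
    fun A hA => hA.1, ?_, ?_⟩
  · rintro A ⟨f, hf, rfl⟩ h
    have hff : f ∈ Subgroup.centralizer ({f} : Set QG) := mem_cent.mpr rfl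
    rw [h, Subgroup.mem_bot] at hff
    apply hf
    rw [hff]
    exact Subgroup.one_mem _
  · intro h
    have ha0 := (QS_inv QS_qa).1
    have hb0 := (QS_inv QS_qb).1
    obtain ⟨fa, hfa⟩ : ∃ fa : QG, ∀ x, fa.1 x = qa * (x - 0) + 0 :=
      ⟨⟨mkAff qa 0 ha0, ⟨qa, 0, QS_qa, fun _ => rfl⟩⟩, fun x => by
        rw [sub_zero]
        rfl⟩
    obtain ⟨fb, hfb⟩ : ∃ fb : QG, ∀ x, fb.1 x = qb * (x - 0) + 0 :=
      ⟨⟨mkAff qb 0 hb0, ⟨qb, 0, QS_qb, fun _ => rfl⟩⟩, fun x => by
        rw [sub_zero]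
        rfl⟩
    have hfa0 : fa.1 0 = 0 := by
      rw [hfa]
      simp
    have hfb0 : fb.1 0 = 0 := by
      rw [hfb]
      simp
    have hfa1 : fa ≠ 1 := by
      rintro rfl
      have h3 := hfa 1
      have h4 : ((1 : QG).1) 1 = 1 := rfl
      rw [h4, sub_zero, mul_one, add_zero] at h3
      exact qa_ne_one h3.symm
    have h1 : stab QG 0 ∈ stabs QG := by
      refine ⟨?_, 0, rfl⟩
      intro h2
      have h3 : fa ∈ stab QG 0 := hfa0
      rw [h2, Subgroup.mem_bot] at h3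
      exact hfa1 h3
    rw [h] at h1
    obtain ⟨f, hf, hs⟩ := h1
    have hfa2 : fa ∈ stab QG 0 := hfa0
    have hfb2 : fb ∈ stab QG 0 := hfb0
    have hff : f ∈ stab QG 0 := by
      rw [hs]
      exact mem_cent.mpr rfl
    have hf1 : f ≠ 1 := by
      rintro rfl
      exact hf (Subgroup.one_mem _)
    rw [hs, mem_cent] at hfa2 hfb2
    have h5 := QG_H1 0 fa f fb hfa0 hff hfb0 hf1 hfa2.symm hfb2
    rw [QG_comm hfa hfb] at h5
    exact qab h5

end Quat

section Rat

/-- rationals with odd denominator -/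
def RR (q : ℚ) : Prop := ∃ m n : ℤ, Odd n ∧ q * n = m

/-- quotients of odd integers -/
def RU (q : ℚ) : Prop := ∃ m n : ℤ, Odd m ∧ Odd n ∧ q * n = m

lemma RU.rr {a : ℚ} (h : RU a) : RR a := by
  obtain ⟨m, n, -, hn, h⟩ := h
  exact ⟨m, n, hn, h⟩

lemma RR.add {a b : ℚ} (ha : RR a) (hb : RR b) : RR (a + b) := by
  obtain ⟨m, n, hn, h⟩ := ha
  obtain ⟨p, q, hq, k⟩ := hb
  refine ⟨m * q + p * n, n * q, hn.mul hq, ?_⟩
  push_cast
  linear_combination q * h + n * k

lemma RR.mul {a b : ℚ} (ha : RR a) (hb : RR b) : RR (a * b) := by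
  obtain ⟨m, n, hn, h⟩ := ha
  obtain ⟨p, q, hq, k⟩ := hb
  refine ⟨m * p, n * q, hn.mul hq, ?_⟩
  push_cast
  linear_combination (b * q) * h + m * k

lemma RR.neg {a : ℚ} (ha : RR a) : RR (-a) := by
  obtain ⟨m, n, hn, h⟩ := ha
  refine ⟨-m, n, hn, ?_⟩
  push_cast
  linear_combination (-1 : ℚ) * h

lemma RU.mul {a b : ℚ} (ha : RU a) (hb : RU b) : RU (a * b) := by
  obtain ⟨m, n, hm, hn, h⟩ := ha
  obtain ⟨p, q, hp, hq, k⟩ := hb
  refine ⟨m * p, n * q, hm.mul hp, hn.mul hq, ?_⟩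
  push_cast
  linear_combination (b * q) * h + m * k

lemma odd_ne {n : ℤ} (hn : Odd n) : (n : ℚ) ≠ 0 := by
  intro h
  have : n = 0 := by exact_mod_cast h
  rw [this] at hn
  exact absurd hn (by decide)

lemma RU.ne_zero {a : ℚ} (ha : RU a) : a ≠ 0 := by
  obtain ⟨m, n, hm, hn, h⟩ := ha
  rintro rfl
  rw [zero_mul] at h
  exact odd_ne hm h.symm

lemma RU.inv {a : ℚ} (ha : RU a) : RU a⁻¹ := by
  have h0 := ha.ne_zero
  obtain ⟨m, n, hm, hn, h⟩ := ha
  refine ⟨n, m, hn, hm, ?_⟩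
  rw [← h, ← mul_assoc, inv_mul_cancel₀ h0, one_mul]

lemma RR_key {a b : ℚ} (ha : RU a) (hb : RU b) : RR ((a - 1) * (b ^ 2 - 1) / 16) := by
  obtain ⟨m, n, hm, hn, h⟩ := ha
  obtain ⟨p, q, hp, hq, k⟩ := hb
  obtain ⟨u, hu⟩ : Even (m - n) := hm.sub_odd hn
  obtain ⟨v, hv⟩ : (8 : ℤ) ∣ p ^ 2 - q ^ 2 := by
    obtain ⟨i, hi⟩ := hp
    obtain ⟨j, hj⟩ := hq
    obtain ⟨r, hr⟩ := Int.even_mul_succ_self i
    obtain ⟨t, ht⟩ := Int.even_mul_succ_self j
    refine ⟨r - t, ?_⟩
    rw [hi, hj]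
    linear_combination 4 * hr - 4 * ht
  refine ⟨u * v, n * q ^ 2, hn.mul hq.pow, ?_⟩
  have e1 : (a - 1) * n = 2 * u := by
    have : ((m - n : ℤ) : ℚ) = ((u + u : ℤ) : ℚ) := by rw [hu]
    push_cast at this
    linear_combination h + this
  have e2 : (b ^ 2 - 1) * q ^ 2 = 8 * v := by
    have : ((p ^ 2 - q ^ 2 : ℤ) : ℚ) = ((8 * v : ℤ) : ℚ) := by rw [hv]
    push_cast at this
    linear_combination this + (b * q + p) * k
  push_cast
  linear_combination (1 / 16) * ((b ^ 2 - 1) * q ^ 2) * e1 + (1 / 16) * (2 * u) * e2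

lemma not_RR_half : ¬ RR (1 / 2) := by
  rintro ⟨m, n, hn, h⟩
  have : n = 2 * m := by
    have : (n : ℚ) = ((2 * m : ℤ) : ℚ) := by
      push_cast
      linear_combination 2 * h
    exact_mod_cast this
  rw [this] at hn
  exact absurd hn (by simp)

/-- The condition on the pair `(a, c)` for the map `x ↦ a x + c`. -/
def RP (a c : ℚ) : Prop := RU a ∧ RR (c - (a ^ 2 - 1) / 16)

lemma RU_one : RU 1 := ⟨1, 1, by decide, by decide, by norm_num⟩

lemma RR_int (n : ℤ) : RR n := ⟨n, 1, by decide, by norm_num⟩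

/-- The group of the maps `x ↦ a x + c`. -/
noncomputable def RG : Subgroup (Perm ℚ) :=
  affGroup RP
    ⟨RU_one, by
      have := RR_int 0
      norm_num at this ⊢
      exact this⟩
    (by
      rintro a c b d ⟨ha, hc⟩ ⟨hb, hd⟩
      refine ⟨ha.mul hb, ?_⟩
      have h1 := ((ha.rr.mul hd).add hc).add ((ha.rr.mul (RR_key ha hb)).neg)
      have e : a * d + c - ((a * b) ^ 2 - 1) / 16 =
          a * (d - (b ^ 2 - 1) / 16) + (c - (a ^ 2 - 1) / 16)
            + -(a * ((a - 1) * (b ^ 2 - 1) / 16)) := by ring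
      rw [e]
      exact h1)
    (by
      rintro a c ⟨ha, hc⟩
      have h0 := ha.ne_zero
      refine ⟨h0, ha.inv, ?_⟩
      have h1 := ((ha.inv.rr.mul hc).neg).add
        (((ha.inv.rr.mul ha.inv.rr).mul (RR_key ha ha)).neg)
      have e : -(a⁻¹ * c) - (a⁻¹ ^ 2 - 1) / 16 = -(a⁻¹ * (c - (a ^ 2 - 1) / 16))
          + -(a⁻¹ * a⁻¹ * ((a - 1) * (a ^ 2 - 1) / 16)) := by
        field_simp
        ring
      rw [e]
      exact h1)

lemma RG_aff : IsAff RG := by
  rintro f ⟨a, c, -, h⟩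
  exact ⟨a, c, h⟩

lemma RG_mem (f : RG) : ∃ a c, RP a c ∧ ∀ x, f.1 x = a * x + c := by
  obtain ⟨a, c, h1, h2⟩ := f.2
  exact ⟨a, c, h1, h2⟩

lemma RG_ex {a c : ℚ} (h : RP a c) : ∃ f : RG, ∀ x, f.1 x = a * x + c :=
  ⟨⟨mkAff a c h.1.ne_zero, ⟨a, c, h, fun _ => rfl⟩⟩, fun _ => rfl⟩

lemma RP_neg : RP (-1) 0 := by
  refine ⟨⟨-1, 1, by decide, by decide, by norm_num⟩, ?_⟩
  have := RR_int 0
  norm_num at this ⊢
  exact this

lemma RP_three : RP 3 (-1 / 2) := by
  refine ⟨⟨3, 1, by decide, by decide, by norm_num⟩, ?_⟩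
  have := RR_int (-1)
  norm_num at this ⊢
  exact this

lemma RP_trans (n : ℤ) : RP 1 n := by
  refine ⟨RU_one, ?_⟩
  have := RR_int n
  norm_num
  exact this

theorem part_two :
    ∃ (G : Type) (_ : Group G) (_ : Infinite G) (N : Subgroup G) (𝒜 : Set (Subgroup G)),
      IsNontrivialFrobeniusPartition N 𝒜 ∧ (∀ A ∈ 𝒜, A ≠ ⊥) ∧
      (∃ A ∈ 𝒜, ∃ B ∈ 𝒜, IsEmpty (A ≃* B)) ∧
      (∀ A ∈ 𝒜, ¬ ∀ g : G, ∃ n ∈ N, ∃ a ∈ A, g = n * a) := by
  obtain ⟨fn, hfn⟩ := RG_ex RP_neg
  obtain ⟨f3, hf3⟩ := RG_ex RP_three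
  have hfn1 : fn ≠ 1 := by
    rintro rfl
    have := hfn 1
    have h4 : ((1 : RG).1) 1 = 1 := rfl
    rw [h4] at this
    norm_num at this
  have hf31 : f3 ≠ 1 := by
    rintro rfl
    have := hf3 1
    have h4 : ((1 : RG).1) 1 = 1 := rfl
    rw [h4] at this
    norm_num at this
  have hinf : Infinite RG := by
    have hinj : Function.Injective (fun n : ℕ => (⟨mkAff (1 : ℚ) n one_ne_zero,
        ⟨1, n, RP_trans n, fun _ => rfl⟩⟩ : RG)) := by
      intro n m hnm
      have h1 := congrArg (fun f : RG => f.1 0) hnm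
      have h2 : mkAff (1 : ℚ) n one_ne_zero 0 = mkAff (1 : ℚ) m one_ne_zero 0 := h1
      rw [mkAff_apply, mkAff_apply, mul_zero, zero_add, zero_add] at h2
      exact_mod_cast h2
    exact Infinite.of_injective _ hinj
  have htr : trans RG ≠ ⊥ := by
    intro h
    obtain ⟨f, hf⟩ := RG_ex (RP_trans 1)
    have h2 : f ∈ trans RG := by
      intro x
      rw [hf, hf]
      ring
    rw [h, Subgroup.mem_bot] at h2
    have h3 := hf 0
    rw [h2] at h3
    have h4 : ((1 : RG).1) 0 = 0 := rfl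
    rw [h4] at h3
    norm_num at h3
  have hex : ∃ f : RG, f ∉ trans RG := by
    refine ⟨fn, ?_⟩
    intro h
    have := h 1
    rw [hfn, hfn] at this
    norm_num at this
  refine ⟨RG, inferInstance, hinf, trans RG, stabs RG, stabs_partition RG_aff htr hex,
    fun A hA => hA.1, ?_, ?_⟩
  · have hn0 : fn.1 0 = 0 := by
      rw [hfn]
      norm_num
    have h3q : f3.1 (1 / 4) = 1 / 4 := by
      rw [hf3]
      norm_num
    refine ⟨stab RG 0, ⟨?_, 0, rfl⟩, stab RG (1 / 4), ⟨?_, 1 / 4, rfl⟩, ?_⟩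
    · intro h
      have h3 : fn ∈ stab RG 0 := hn0
      rw [h, Subgroup.mem_bot] at h3
      exact hfn1 h3
    · intro h
      have h3 : f3 ∈ stab RG (1 / 4) := h3q
      rw [h, Subgroup.mem_bot] at h3
      exact hf31 h3
    · constructor
      intro e
      obtain ⟨y, hy⟩ : ∃ y, e ⟨fn, hn0⟩ = y := ⟨_, rfl⟩
      have hyy : y * y = 1 := by
        rw [← hy, ← map_mul]
        have : (⟨fn, hn0⟩ : stab RG 0) * ⟨fn, hn0⟩ = 1 := by
          apply Subtype.ext
          apply Subtype.ext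
          apply Equiv.ext
          intro x
          show fn.1 (fn.1 x) = x
          rw [hfn, hfn]
          ring
        rw [this, map_one]
      have hy1 : y ≠ 1 := by
        intro h
        rw [h] at hy
        have h2 : (⟨fn, hn0⟩ : stab RG 0) = 1 := by
          apply e.injective
          rw [hy, map_one]
        exact hfn1 (congrArg Subtype.val h2)
      apply hy1
      obtain ⟨a, c, ⟨hU, hR⟩, hac⟩ := RG_mem y.1
      have hfix : y.1.1 (1 / 4) = 1 / 4 := y.2
      rw [hac] at hfix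
      have hyy' : ∀ x, y.1.1 (y.1.1 x) = x := by
        intro x
        have := congrArg (fun z : stab RG (1 / 4) => z.1.1 x) hyy
        exact this
      have h0 := hyy' 0
      have h1 := hyy' 1
      rw [hac, hac] at h0 h1
      have haa : (a - 1) * (a + 1) = 0 := by linear_combination h1 - h0
      rcases mul_eq_zero.mp haa with h5 | h5
      · have ha1 : a = 1 := by linear_combination h5
        have hc0 : c = 0 := by
          rw [ha1] at hfix
          linear_combination hfix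
        apply Subtype.ext
        apply Subtype.ext
        apply Equiv.ext
        intro x
        rw [hac, ha1, hc0, one_mul, add_zero]
        rfl
      · exfalso
        have ha1 : a = -1 := by linear_combination h5
        have hc0 : c = 1 / 2 := by
          rw [ha1] at hfix
          linear_combination hfix
        rw [ha1, hc0] at hR
        norm_num at hR
        apply not_RR_half
        norm_num
        exact hR
  · rintro A ⟨-, q, rfl⟩ hall
    have key : ∀ (f : RG) (a c : ℚ), (∀ x, f.1 x = a * x + c) →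
        ∃ d, RR (d - (a ^ 2 - 1) / 16) ∧ a * q + d = q := by
      intro f a c hf
      obtain ⟨n, hn, b, hb, hfb⟩ := hall f
      obtain ⟨a', c', ⟨-, hR⟩, hac⟩ := RG_mem b
      have h1 : ∀ x, f.1 x = a' * x + c' + n.1 0 := by
        intro x
        have : f.1 x = n.1 (b.1 x) := by
          rw [hfb]
          rfl
        rw [this, hn, hac]
      have h2 := h1 0
      have h3 := h1 1
      rw [hf] at h2 h3
      have h4 : a' = a := by linear_combination h2 - h3
      rw [h4] at hR hac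
      have hbq : b.1 q = q := hb
      rw [hac] at hbq
      exact ⟨c', hR, hbq⟩
    obtain ⟨d, hd, hdq⟩ := key fn (-1) 0 hfn
    obtain ⟨d', hd', hdq'⟩ := key f3 3 (-1 / 2) hf3
    apply not_RR_half
    have := (hd.add hd').neg
    have e : -(d - ((-1) ^ 2 - 1) / 16 + (d' - (3 ^ 2 - 1) / 16)) = (1 / 2 : ℚ) := by
      linear_combination (-1 : ℚ) * hdq - hdq'
    rw [e] at this
    exact this

end Rat

/-- None of the three properties (i), (ii), (iii) holds for all infinite groups with a nontrivial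
Frobenius partition. -/
theorem result :
    (∃ (G : Type) (_ : Group G) (_ : Infinite G) (N : Subgroup G) (𝒜 𝒜' : Set (Subgroup G)),
      IsNontrivialFrobeniusPartition N 𝒜 ∧ IsNontrivialFrobeniusPartition N 𝒜' ∧
      (∀ A ∈ 𝒜, A ≠ ⊥) ∧ (∀ A ∈ 𝒜', A ≠ ⊥) ∧ 𝒜 ≠ 𝒜') ∧
    (∃ (G : Type) (_ : Group G) (_ : Infinite G) (N : Subgroup G) (𝒜 : Set (Subgroup G)),
      IsNontrivialFrobeniusPartition N 𝒜 ∧ (∀ A ∈ 𝒜, A ≠ ⊥) ∧
      (∃ A ∈ 𝒜, ∃ B ∈ 𝒜, IsEmpty (A ≃* B)) ∧
      (∀ A ∈ 𝒜, ¬ ∀ g : G, ∃ n ∈ N, ∃ a ∈ A, g = n * a)) :=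
  ⟨part_one, part_two⟩

end Pool.Agent.Results.MP_c23b5e_al.AllFail
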